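import Mathlib
import Pool.Agent.Lib_MP_a891d2_an.SRB
import Pool.Agent.Lib_MP_a891d2_an.Basin

/-!
# A dissipative endomorphism of the two-torus with a non-uniformly hyperbolic SRB measure without
# dominated splitting

Problem `MP_a891d2_an`, Q1 (answer: yes).  The map is the real-analytic skew product
`f (x, y) = (3 x, g_x y)` of `(ℝ/ℤ)²`, where `g_x` is the projective circle diffeomorphism
`tan (π g_x(y)) = a(x) tan (π y)` with `a(x) = exp (-1 + 3 cos (2πx))`, and the measure is Lebesgue
measure on the invariant circle `y = 0`.
-/

namespace Pool.Agent.Lib_MP_a891d2_old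

open MeasureTheory Filter Topology
open Pool.Agent.Results.MP_a891d2_an.TorusExample

/-- There are a non-invertible real-analytic local diffeomorphism `f` of the two-torus, which
preserves no probability measure that is absolutely continuous with respect to area, and an ergodic
`f`-invariant probability measure `μ` with lift `μ'` to the natural extension such that: the
Lyapunov exponents of `μ` satisfy `χm < 0 < χp`; the conditional measures of `μ'` on unstable
manifolds, pushed to the torus, are absolutely continuous with respect to arc length; there is no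
dominated splitting over the support of `μ'`. Moreover the basin of `μ` has full area. -/
theorem torusExample :
    ∃ (F : ℝ × ℝ → ℝ × ℝ) (f : Torus → Torus) (μ : Measure Torus) (μ' : Measure (ℕ → Torus))
      (_ : IsProbabilityMeasure μ) (_ : IsProbabilityMeasure μ') (χm χp : ℝ),
      IsEndomorphism F f ∧ IsDissipative f ∧ Ergodic f μ ∧ IsNaturalLift f μ μ' ∧
      χm < 0 ∧ 0 < χp ∧ HasLyapunovExponents F μ' χm χp ∧ IsSRB f μ' ∧
      (¬ ∃ E E' : (ℕ → Torus) → Submodule ℝ (ℝ × ℝ), IsDominatedSplitting F f μ'.support E E') ∧
      (∀ᵐ p : Torus, ∀ φ : C(Torus, ℝ),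
        Tendsto (fun n : ℕ => (∑ k ∈ Finset.range n, φ (f^[k] p)) / n) atTop
          (𝓝 (∫ p, φ p ∂μ))) :=
  ⟨lift, map, mu, mu', inferInstance, inferInstance, -1, Real.log 3, isEndomorphism_map,
    isDissipative, ergodic_map, isNaturalLift, by norm_num, Real.log_pos (by norm_num),
    hasLyapunovExponents, isSRB, no_dominated_splitting, basin⟩

end Pool.Agent.Lib_MP_a891d2_old
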